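import Pool.Agent.H96.LE.Main2

/-!
# Non-intersection exponents of planar loop-erased Brownian excursions

For distinct points `z_1, …, z_k` of the unit circle let `p_n` be the probability that the
independent pairs `(ω^j, L(ω^j))`, each the joint scaling limit of the simple random walk excursion
in `A_n = {1 < |z| < e^n}` from `z_j` and its chronological loop erasure, satisfy
`L(ω^j) ∩ ω^l = ∅` for all `j < l`.  Then `-(1/n) log p_n → (k² - 1) / 4`.

The definitions (`Approx`, `LimitAlong`, `IsScalingLimit`, `excLaw`, `nonInt`, …) are in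
`Pool/Agent/H96/LE/ExcDefs.lean`.
-/

namespace Pool.Agent.Results.MP_061be1_pr.ExcursionExponent

open Pool.Agent.H96.LE MeasureTheory Filter Topology

/-- Let `z_1, …, z_k` be distinct points of the unit circle.  There are numbers `p n` such that, for
every `n > 0`: discrete approximations of the points exist; along a subsequence of any of them the
laws of the discrete pairs `(ω, L(ω))` converge; along any of them the discrete non-intersection
probabilities converge to `p n`; and for every scaling limit of the pairs the non-intersection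
probability equals `p n`.  Moreover `-(1/n) log (p n)` converges to `(k² - 1) / 4`. -/
theorem result {k : ℕ} (hk : 1 ≤ k) (z : Fin k → ℂ) (hz : ∀ j, ‖z j‖ = 1)
    (hinj : Function.Injective z) :
    ∃ p : ℝ → ℝ,
      (∀ n : ℝ, 0 < n →
        (∃ δ a, Approx n z δ a) ∧
        (∀ δ a, Approx n z δ a →
          (∃ φ : ℕ → ℕ, StrictMono φ ∧
            ∃ μ, LimitAlong n (fun i => δ (φ i)) (fun i => a (φ i)) μ) ∧
          Tendsto (fun i => nonInt (fun j => excLaw (δ i) n (a i j))) atTop (𝓝 (p n))) ∧
        (∀ μ, IsScalingLimit n z μ → nonInt μ = p n)) ∧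
      Tendsto (fun n : ℝ => -(1 / n) * Real.log (p n)) atTop (𝓝 (((k : ℝ) ^ 2 - 1) / 4)) := by
  refine ⟨fun n => pn n (fun j => an (Complex.arg (z j))), fun n hn => ⟨exists_approx hn hz, ?_, ?_⟩,
    pn_log hk _ (Dd_ne_zero hz hinj)⟩
  · intro δ a A
    exact ⟨exists_limit A, disc_nonInt_lim hk hn hz hinj A⟩
  · rintro μ ⟨δ, a, A, hμ⟩
    exact nonInt_eq hk hn hz hinj A μ hμ

end Pool.Agent.Results.MP_061be1_pr.ExcursionExponent
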